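import Pool.Agent.Helper62.WB.Goals
import Pool.Agent.Helper62.WB.Basic

/-!
# Packet RB of project WB (helper62): noncommuting elements and the obstruction
-/

set_option autoImplicit false

namespace Pool.Agent.Helper30.WB

open Pool.Agent.Helper62.WB

variable {T : RTree} {Γ : Type} [Group Γ]

/-- elements of the rigid stabilisers of different vertices commute -/
theorem rist_comm {a : TAct T Γ} (ha : a.WeaklyBranch) {n : ℕ} {u v : T.L n} (huv : u ≠ v)
    {p q : Γ} (hp : p ∈ a.Rist u) (hq : q ∈ a.Rist v) : p * q = q * p := by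
  have hpa := Rist_act hp
  have hqa := Rist_act hq
  rw [mem_Rist_iff] at hp hq
  refine bd_injective ha (Equiv.ext fun y => ?_)
  rw [map_mul, map_mul, Equiv.Perm.mul_apply, Equiv.Perm.mul_apply]
  by_cases h1 : y.1 n = v
  · have h2 : (a.bd q y).1 n ≠ u := by
      rw [TAct.bd_apply, hqa, Equiv.Perm.one_apply, h1]
      exact huv.symm
    have h3 : y.1 n ≠ u := by
      rw [h1]
      exact huv.symm
    rw [hp _ h2, hp _ h3]
  · have h2 : (a.bd p y).1 n ≠ v := by
      rw [TAct.bd_apply, hpa, Equiv.Perm.one_apply]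
      exact h1
    rw [hq _ h1, hq _ h2]

/-- a trivial element from two different rigid stabilisers -/
theorem rist_inter {a : TAct T Γ} (ha : a.WeaklyBranch) {n : ℕ} {u v : T.L n} (huv : u ≠ v)
    {s : Γ} (h1 : s ∈ a.Rist u) (h2 : s ∈ a.Rist v) : s = 1 := by
  rw [mem_Rist_iff] at h1 h2
  refine eq_one_of_bd ha fun y => ?_
  by_cases h : y.1 n = u
  · exact h2 y (by rw [h]; exact huv)
  · exact h1 y h

theorem noncomm {a : TAct T Γ} (ha : a.WeaklyBranch) (n : ℕ) (v : T.L n) :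
    ∃ r ∈ a.Rist v, ∃ s ∈ a.Rist v, r * s ≠ s * r := by
  obtain ⟨r, hr, hr1⟩ := ha.rist n v
  have h1 : ∃ x, a.bd r x ≠ x := by
    by_contra h
    push Not at h
    exact hr1 (eq_one_of_bd ha h)
  obtain ⟨x, hx⟩ := h1
  obtain ⟨m, hm⟩ := bd_ne hx
  have hxv : x.1 n = v := by
    by_contra h
    exact hx ((mem_Rist_iff a v r).1 hr x h)
  have hN : (a.bd r x).1 (max n m) ≠ x.1 (max n m) := bd_ne_of_le (le_max_right n m) hm
  obtain ⟨s, hs, hs1⟩ := ha.rist (max n m) (x.1 (max n m))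
  have hsv : s ∈ a.Rist v := by
    rw [← hxv]
    exact Rist_le (le_max_left n m) hs
  refine ⟨r, hr, s, hsv, fun hcomm => hs1 ?_⟩
  have h2 := Rist_conj hs r
  have h3 : r * s * r⁻¹ = s := by
    rw [hcomm, mul_inv_cancel_right]
  rw [h3] at h2
  exact rist_inter ha hN h2 hs

theorem rb : StmtRB := by
  refine ⟨fun T Γ _ a ha n v => noncomm ha n v, ?_⟩
  intro T Γ Q _ _ a ha hRF i hi σ t ht n g
  obtain ⟨root, hroot⟩ := T.root
  obtain ⟨x0, -⟩ := exists_bd T 0 root
  set v := x0.1 n with hv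
  obtain ⟨c, hc, d, hd, hcd⟩ := noncomm ha n v
  have hne : i c * i d * (i c)⁻¹ * (i d)⁻¹ ≠ 1 := by
    intro h
    apply hcd
    apply hi
    rw [map_mul, map_mul]
    rw [mul_inv_eq_one] at h
    exact (mul_inv_eq_iff_eq_mul.mp h)
  obtain ⟨H, hHn, hHf, hH⟩ := hRF _ hne
  -- elements with image in `H` fix `v`
  have fixv : ∀ x : Γ, i x ∈ H → a.act n x v = v := by
    intro x hx
    by_contra hxv
    have h1 : x * c * x⁻¹ ∈ a.Rist (a.act n x v) := Rist_conj hc x
    have h2 := rist_comm ha hxv h1 hd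
    apply hH
    have h3 := congrArg i h2
    simp only [map_mul, map_inv] at h3
    have hx1 : ((i x : Q) : Q ⧸ H) = 1 := (QuotientGroup.eq_one_iff _).2 hx
    have h4 := congrArg (fun q : Q => (q : Q ⧸ H)) h3
    simp only [QuotientGroup.mk_mul, QuotientGroup.mk_inv, hx1, one_mul, inv_one, mul_one] at h4
    rw [← QuotientGroup.eq_one_iff]
    simp only [QuotientGroup.mk_mul, QuotientGroup.mk_inv]
    rw [h4]
    group
  have fixall : ∀ x : Γ, i x ∈ H → a.act n x = 1 := by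
    intro x hx
    ext w
    obtain ⟨k, rfl⟩ := ha.trans n v w
    have h1 : i (k⁻¹ * x * k) ∈ H := by
      rw [map_mul, map_mul, map_inv]
      have := hHn.conj_mem _ hx (i k)⁻¹
      rwa [inv_inv] at this
    have h2 := fixv _ h1
    rw [map_mul, map_mul, map_inv, Equiv.Perm.mul_apply, Equiv.Perm.mul_apply,
      Equiv.Perm.inv_eq_iff_eq] at h2
    rw [h2]
    rfl
  -- the finite quotient
  have : Finite (Q ⧸ H) := inferInstance
  let φ : Γ →* Q ⧸ H := (QuotientGroup.mk' H).comp i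
  let τ : Q ⧸ H := (t : Q ⧸ H)
  have hφ : ∀ h : Γ, τ * φ h * τ⁻¹ = φ (σ h) := by
    intro h
    have := congrArg (fun q : Q => (q : Q ⧸ H)) (ht h)
    simpa [φ, τ] using this
  let f : φ.range → φ.range := fun p => ⟨τ * p * τ⁻¹, by
    obtain ⟨p, h, rfl⟩ := p
    exact ⟨σ h, (hφ h).symm⟩⟩
  have hf : Function.Injective f := by
    intro p q hpq
    have h1 : τ * (p : Q ⧸ H) * τ⁻¹ = τ * (q : Q ⧸ H) * τ⁻¹ := congrArg Subtype.val hpq
    exact Subtype.ext (mul_left_cancel (mul_right_cancel h1))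
  have hfs : Function.Surjective f := Finite.surjective_of_injective hf
  obtain ⟨⟨p, h, rfl⟩, hp⟩ := hfs ⟨φ g, ⟨g, rfl⟩⟩
  have h1 : φ (σ h) = φ g := by
    rw [← hφ h]
    exact congrArg Subtype.val hp
  refine ⟨h, ?_⟩
  have h2 : i ((σ h)⁻¹ * g) ∈ H := by
    rw [map_mul, map_inv]
    exact QuotientGroup.eq.mp h1
  have h3 := fixall _ h2
  rw [map_mul, map_inv, inv_mul_eq_one] at h3
  exact h3

end Pool.Agent.Helper30.WB
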